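import Pool.Agent.Helper17.OD.GoalsGM

/-! # Packet EL1: the countable collapse is a second order structure -/

namespace Pool.Agent.Helper17.OD.PkEL1

open Set
open Pool.Agent.Helper17.OD

/-! ## Basic facts -/

theorem map_mem {f : O → O} {γ θ : O} (h : ∀ x < γ, f x < θ) (t : T) (ht : t ∈ D (Iio γ)) :
    t.map f ∈ D (Iio θ) := by
  induction t with
  | nat n => exact nat_mem _ _
  | ord a => exact ord_mem.2 (h a (ord_mem.1 ht))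
  | pr s t hs ht' =>
    obtain ⟨h1, h2⟩ := pr_mem.1 ht
    exact pr_mem.2 ⟨hs h1, ht' h2⟩

theorem inD_iff {d : O} {x : T} : InD (.ord d) x ↔ x ∈ D (Iio d) := by
  constructor
  · rintro ⟨b, h1, h2⟩
    cases h1
    exact h2
  · intro h
    exact ⟨d, rfl, h⟩

theorem lt_ord {a b : O} : (Tr.ord a : T).lt (.ord b) ↔ a < b := by
  simp [Tr.lt]

theorem isOrd_iff {x : T} : x.IsOrd ↔ ∃ a : O, x = .ord a := by
  cases x with
  | nat n => simp [Tr.IsOrd]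
  | ord a => simp [Tr.IsOrd]
  | pr s t => simp [Tr.IsOrd]

theorem nth_mem {A : Set O} : ∀ (n : ℕ) (K : T), K ∈ D A → nth K n ∈ D A
  | 0, _, h => fst_mem h
  | n + 1, K, h => nth_mem n K.snd (snd_mem h)

/-- Membership in a coded set by a T-definable relation. -/
theorem mem_dec_iff {C x : T} : x ∈ dec C ↔
    C = .pr C.fst (.pr C.snd.fst C.snd.snd) ∧ TruT C.fst C.snd.fst (.pr x C.snd.snd) := by
  constructor
  · rintro ⟨b, φ, v, rfl, h1, h2, h3⟩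
    exact ⟨rfl, b, φ, rfl, rfl, pr_mem.2 ⟨h2, h1⟩, h3⟩
  · rintro ⟨h1, b, φ, h2, h3, h4, h5⟩
    refine ⟨b, φ, C.snd.snd, ?_, (pr_mem.1 h4).2, (pr_mem.1 h4).1, h5⟩
    rw [← h2, ← h3]
    exact h1

theorem dec_sub {C : T} {γ : O} (hC : C ∈ D (Iio γ)) : ∀ x ∈ dec C, x ∈ D (Iio γ) := by
  rintro x ⟨b, φ, v, rfl, h1, h2, h3⟩
  have hb : b < γ := ord_mem.1 (pr_mem.1 hC).1
  exact D_mono (fun y (hy : y < b) => lt_trans hy hb) h2

theorem limit_of {w : O} (h0 : ∃ x, x < w) (h : ∀ x < w, ∃ y, x < y ∧ y < w) :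
    Order.IsSuccLimit w := by
  obtain ⟨x₀, hx₀⟩ := h0
  refine ⟨fun hm => (hm hx₀.le).not_gt hx₀, ?_⟩
  intro b hb
  obtain ⟨y, h1, h2⟩ := h b hb.lt
  exact hb.2 h1 h2

/-! ## Transfer -/

theorem transfer {w₀ κ₀ θ w κ γ : O} {f : O → O} (hE : Elm w₀ κ₀ θ w κ γ f)
    {P : O → T → Prop} (hP : TDef P) {e : T} (he : e ∈ D (Iio γ)) :
    P γ e ↔ P θ (e.map f) := by
  obtain ⟨c, hc⟩ := hP
  rw [← hc γ e he, ← hc θ (e.map f) (map_mem hE.rng e he)]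
  exact hE.tru c e he

section defs

variable (h1 : G_TTC) (h2 : G_TDC) (h3 : G_TDC2)

include h1 h2

/-- `e` is a limit. -/
def LimP (a : O) (e : T) : Prop := ∀ x ∈ D (Iio a), (x.IsOrd ∧ x.lt e) →
  ∃ y ∈ D (Iio a), y.IsOrd ∧ (x.lt y ∧ y.lt e)

theorem limP_def : TDef LimP := by
  obtain ⟨t1, t2, t3, t4, t5, t6, t7⟩ := h1
  obtain ⟨d1, d2, d3, d4, d5, d6, d7, d8, d9, d10, d11, d12, d13, d14, d15⟩ := h2
  refine d12 (fun a e x => (x.IsOrd ∧ x.lt e) → ∃ y ∈ D (Iio a), y.IsOrd ∧ (x.lt y ∧ y.lt e)) ?_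
  refine d9 (fun a p => p.fst.IsOrd ∧ p.fst.lt p.snd)
    (fun a p => ∃ y ∈ D (Iio a), y.IsOrd ∧ (p.fst.lt y ∧ y.lt p.snd)) ?_ ?_
  · exact d7 (fun a p => p.fst.IsOrd) (fun a p => p.fst.lt p.snd) (d3 _ (t4 _ t1))
      (d2 _ _ (t4 _ t1) (t5 _ t1))
  · refine d11 (fun a p y => y.IsOrd ∧ (p.fst.lt y ∧ y.lt p.snd)) ?_
    refine d7 (fun a q => q.fst.IsOrd) (fun a q => q.snd.fst.lt q.fst ∧ q.fst.lt q.snd.snd)
      (d3 _ (t4 _ t1)) ?_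
    exact d7 (fun a q => q.snd.fst.lt q.fst) (fun a q => q.fst.lt q.snd.snd)
      (d2 _ _ (t4 _ (t5 _ t1)) (t4 _ t1)) (d2 _ _ (t4 _ t1) (t5 _ (t5 _ t1)))

/-- The top is a limit. -/
def TopP (a : O) (_ : T) : Prop := ∀ x ∈ D (Iio a), x.IsOrd →
  ∃ y ∈ D (Iio a), y.IsOrd ∧ x.lt y

theorem topP_def : TDef TopP := by
  obtain ⟨t1, t2, t3, t4, t5, t6, t7⟩ := h1
  obtain ⟨d1, d2, d3, d4, d5, d6, d7, d8, d9, d10, d11, d12, d13, d14, d15⟩ := h2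
  refine d12 (fun a e x => x.IsOrd → ∃ y ∈ D (Iio a), y.IsOrd ∧ x.lt y) ?_
  refine d9 (fun a p => p.fst.IsOrd)
    (fun a p => ∃ y ∈ D (Iio a), y.IsOrd ∧ p.fst.lt y) (d3 _ (t4 _ t1)) ?_
  refine d11 (fun a p y => y.IsOrd ∧ p.fst.lt y) ?_
  exact d7 (fun a q => q.fst.IsOrd) (fun a q => q.snd.fst.lt q.fst)
    (d3 _ (t4 _ t1)) (d2 _ _ (t4 _ (t5 _ t1)) (t4 _ t1))

/-- There is a nonzero limit below `e`. -/
def OmP (a : O) (e : T) : Prop := ∃ z ∈ D (Iio a), (z.IsOrd ∧ z.lt e) ∧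
  ((∃ x ∈ D (Iio a), x.IsOrd ∧ x.lt z) ∧ LimP a z)

theorem omP_def : TDef OmP := by
  have hL := limP_def h1 h2
  obtain ⟨t1, t2, t3, t4, t5, t6, t7⟩ := h1
  obtain ⟨d1, d2, d3, d4, d5, d6, d7, d8, d9, d10, d11, d12, d13, d14, d15⟩ := h2
  refine d11 (fun a e z => (z.IsOrd ∧ z.lt e) ∧ ((∃ x ∈ D (Iio a), x.IsOrd ∧ x.lt z) ∧
    LimP a z)) ?_
  refine d7 (fun a p => p.fst.IsOrd ∧ p.fst.lt p.snd)
    (fun a p => (∃ x ∈ D (Iio a), x.IsOrd ∧ x.lt p.fst) ∧ LimP a p.fst) ?_ ?_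
  · exact d7 (fun a p => p.fst.IsOrd) (fun a p => p.fst.lt p.snd) (d3 _ (t4 _ t1))
      (d2 _ _ (t4 _ t1) (t5 _ t1))
  · refine d7 (fun a p => ∃ x ∈ D (Iio a), x.IsOrd ∧ x.lt p.fst) (fun a p => LimP a p.fst) ?_
      (d13 _ _ hL (t4 _ t1))
    refine d11 (fun a p x => x.IsOrd ∧ x.lt p.fst) ?_
    exact d7 (fun a q => q.fst.IsOrd) (fun a q => q.fst.lt q.snd.fst) (d3 _ (t4 _ t1))
      (d2 _ _ (t4 _ t1) (t4 _ (t5 _ t1)))

include h3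

/-- Comprehension for the code `c`. -/
def CmpP (c : Code) (a : O) (E : T) : Prop := ∃ C ∈ D (Iio a), ∀ x ∈ D (Iio a),
  ((C = .pr C.fst (.pr C.snd.fst C.snd.snd) ∧ TruT C.fst C.snd.fst (.pr x C.snd.snd)) ↔
    (InD E.fst x ∧ Tru a c (.pr (.pr x E.snd.fst) E.snd.snd)))

theorem cmpP_def (c : Code) : TDef (CmpP c) := by
  obtain ⟨t1, t2, t3, t4, t5, t6, t7⟩ := h1
  obtain ⟨d1, d2, d3, d4, d5, d6, d7, d8, d9, d10, d11, d12, d13, d14, d15⟩ := h2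
  obtain ⟨e1, e2, e3, e4, e5, e6⟩ := h3
  refine d11 (fun a E C => ∀ x ∈ D (Iio a),
    ((C = .pr C.fst (.pr C.snd.fst C.snd.snd) ∧ TruT C.fst C.snd.fst (.pr x C.snd.snd)) ↔
    (InD E.fst x ∧ Tru a c (.pr (.pr x E.snd.fst) E.snd.snd)))) ?_
  refine d12 (fun a p x => ((p.fst = .pr p.fst.fst (.pr p.fst.snd.fst p.fst.snd.snd) ∧
    TruT p.fst.fst p.fst.snd.fst (.pr x p.fst.snd.snd)) ↔
    (InD p.snd.fst x ∧ Tru a c (.pr (.pr x p.snd.snd.fst) p.snd.snd.snd)))) ?_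
  have cC := t4 _ (t5 _ t1)
  have cx := t4 _ t1
  have cE := t5 _ (t5 _ t1)
  refine d10 (fun a q => q.snd.fst = .pr q.snd.fst.fst (.pr q.snd.fst.snd.fst q.snd.fst.snd.snd) ∧
    TruT q.snd.fst.fst q.snd.fst.snd.fst (.pr q.fst q.snd.fst.snd.snd))
    (fun a q => InD q.snd.snd.fst q.fst ∧
      Tru a c (.pr (.pr q.fst q.snd.snd.snd.fst) q.snd.snd.snd.snd)) ?_ ?_
  · refine d7 (fun a q => q.snd.fst = .pr q.snd.fst.fst (.pr q.snd.fst.snd.fst q.snd.fst.snd.snd))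
      (fun a q => TruT q.snd.fst.fst q.snd.fst.snd.fst (.pr q.fst q.snd.fst.snd.snd)) ?_ ?_
    · exact d1 _ _ cC (t6 _ _ (t4 _ cC) (t6 _ _ (t4 _ (t5 _ cC)) (t5 _ (t5 _ cC))))
    · exact d14 _ _ _ (t4 _ cC) (t4 _ (t5 _ cC)) (t6 _ _ cx (t5 _ (t5 _ cC)))
  · refine d7 (fun a q => InD q.snd.snd.fst q.fst)
      (fun a q => Tru a c (.pr (.pr q.fst q.snd.snd.snd.fst) q.snd.snd.snd.snd)) ?_ ?_
    · exact e1 _ _ (t4 _ cE) cx
    · exact d15 _ _ (t6 _ _ (t6 _ _ cx (t4 _ (t5 _ cE))) (t5 _ (t5 _ cE)))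

/-- Collection for the code `c`. -/
def ColP (c : Code) (a : O) (E : T) : Prop :=
  (∀ x ∈ D (Iio a), InD E.fst x → ∃ y ∈ D (Iio a),
    Tru a c (.pr (.pr y (.pr x E.snd.fst)) E.snd.snd)) →
  ∃ z ∈ D (Iio a), z.IsOrd ∧ ∀ x ∈ D (Iio a), InD E.fst x → ∃ y ∈ D (Iio a),
    (InD z y ∧ Tru a c (.pr (.pr y (.pr x E.snd.fst)) E.snd.snd))

theorem colP_def (c : Code) : TDef (ColP c) := by
  obtain ⟨t1, t2, t3, t4, t5, t6, t7⟩ := h1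
  obtain ⟨d1, d2, d3, d4, d5, d6, d7, d8, d9, d10, d11, d12, d13, d14, d15⟩ := h2
  obtain ⟨e1, e2, e3, e4, e5, e6⟩ := h3
  refine d9 (fun a E => ∀ x ∈ D (Iio a), InD E.fst x → ∃ y ∈ D (Iio a),
      Tru a c (.pr (.pr y (.pr x E.snd.fst)) E.snd.snd))
    (fun a E => ∃ z ∈ D (Iio a), z.IsOrd ∧ ∀ x ∈ D (Iio a), InD E.fst x → ∃ y ∈ D (Iio a),
      (InD z y ∧ Tru a c (.pr (.pr y (.pr x E.snd.fst)) E.snd.snd))) ?_ ?_
  · refine d12 (fun a E x => InD E.fst x → ∃ y ∈ D (Iio a),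
      Tru a c (.pr (.pr y (.pr x E.snd.fst)) E.snd.snd)) ?_
    refine d9 (fun a p => InD p.snd.fst p.fst) (fun a p => ∃ y ∈ D (Iio a),
      Tru a c (.pr (.pr y (.pr p.fst p.snd.snd.fst)) p.snd.snd.snd))
      (e1 _ _ (t4 _ (t5 _ t1)) (t4 _ t1)) ?_
    refine d11 (fun a p y => Tru a c (.pr (.pr y (.pr p.fst p.snd.snd.fst)) p.snd.snd.snd)) ?_
    have cE := t5 _ (t5 _ t1)
    exact d15 _ _ (t6 _ _ (t6 _ _ (t4 _ t1) (t6 _ _ (t4 _ (t5 _ t1)) (t4 _ (t5 _ cE))))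
      (t5 _ (t5 _ cE)))
  · refine d11 (fun a E z => z.IsOrd ∧ ∀ x ∈ D (Iio a), InD E.fst x → ∃ y ∈ D (Iio a),
      (InD z y ∧ Tru a c (.pr (.pr y (.pr x E.snd.fst)) E.snd.snd))) ?_
    refine d7 (fun a p => p.fst.IsOrd) (fun a p => ∀ x ∈ D (Iio a), InD p.snd.fst x →
      ∃ y ∈ D (Iio a), (InD p.fst y ∧
        Tru a c (.pr (.pr y (.pr x p.snd.snd.fst)) p.snd.snd.snd))) (d3 _ (t4 _ t1)) ?_
    refine d12 (fun a p x => InD p.snd.fst x → ∃ y ∈ D (Iio a), (InD p.fst y ∧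
        Tru a c (.pr (.pr y (.pr x p.snd.snd.fst)) p.snd.snd.snd))) ?_
    -- q = pr x (pr z E)
    refine d9 (fun a q => InD q.snd.snd.fst q.fst) (fun a q => ∃ y ∈ D (Iio a),
      (InD q.snd.fst y ∧
        Tru a c (.pr (.pr y (.pr q.fst q.snd.snd.snd.fst)) q.snd.snd.snd.snd)))
      (e1 _ _ (t4 _ (t5 _ (t5 _ t1))) (t4 _ t1)) ?_
    refine d11 (fun a q y => (InD q.snd.fst y ∧
        Tru a c (.pr (.pr y (.pr q.fst q.snd.snd.snd.fst)) q.snd.snd.snd.snd))) ?_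
    -- r = pr y (pr x (pr z E))
    refine d7 (fun a r => InD r.snd.snd.fst r.fst)
      (fun a r => Tru a c (.pr (.pr r.fst (.pr r.snd.fst r.snd.snd.snd.snd.fst))
        r.snd.snd.snd.snd.snd)) (e1 _ _ (t4 _ (t5 _ (t5 _ t1))) (t4 _ t1)) ?_
    have cE := t5 _ (t5 _ (t5 _ t1))
    exact d15 _ _ (t6 _ _ (t6 _ _ (t4 _ t1) (t6 _ _ (t4 _ (t5 _ t1)) (t4 _ (t5 _ cE))))
      (t5 _ (t5 _ cE)))

end defs

/-! ## The structure -/

theorem limP_iff {a w : O} (hw : w ≤ a) : LimP a (.ord w) ↔ ∀ x < w, ∃ y, x < y ∧ y < w := by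
  constructor
  · intro h x hx
    obtain ⟨y, hy, h1, h2, h3⟩ := h (.ord x) (ord_mem.2 (lt_of_lt_of_le hx hw))
      ⟨trivial, lt_ord.2 hx⟩
    obtain ⟨b, rfl⟩ := isOrd_iff.1 h1
    exact ⟨b, lt_ord.1 h2, lt_ord.1 h3⟩
  · rintro h x hx ⟨h1, h2⟩
    obtain ⟨b, rfl⟩ := isOrd_iff.1 h1
    obtain ⟨y, h3, h4⟩ := h b (lt_ord.1 h2)
    exact ⟨.ord y, ord_mem.2 (lt_of_lt_of_le h4 hw), trivial, lt_ord.2 h3, lt_ord.2 h4⟩

theorem between_of_limit {w : O} (h : Order.IsSuccLimit w) : ∀ x < w, ∃ y, x < y ∧ y < w :=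
  fun x hx => ⟨Order.succ x, Order.lt_succ x, h.succ_lt hx⟩

theorem thm (h0 : G_TRS) (h1 : G_TTC) (h2 : G_TDC) (h3 : G_TDC2) : G_EL1 := by
  intro w₀ κ₀ θ w κ γ f hE hS hω hwk hw0 hk0
  have hθ : Order.IsSuccLimit θ := hS.lim
  obtain ⟨hwγ, hfw⟩ := hE.hw
  obtain ⟨hκγ, hfκ⟩ := hE.hk
  have hw₀θ : w₀ < θ := hfw ▸ hE.rng w hwγ
  have hκ₀θ : κ₀ < θ := hfκ ▸ hE.rng κ hκγ
  have hwκ : w < κ := (hE.mono.lt_iff_lt (mem_Iio.2 hwγ) (mem_Iio.2 hκγ)).1 (by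
    rw [hfw, hfκ]; exact hwk)
  -- limits
  have hlim : ∀ μ < γ, Order.IsSuccLimit (f μ) → ∀ x < μ, ∃ y, x < y ∧ y < μ := by
    intro μ hμ hf
    have h4 : LimP θ ((Tr.ord μ : T).map f) :=
      (limP_iff (hE.rng μ hμ).le).2 (between_of_limit hf)
    exact (limP_iff hμ.le).1 ((transfer hE (limP_def h1 h2) (ord_mem.2 hμ)).2 h4)
  have hωw : Ordinal.omega0 < w := by
    have h4 : OmP θ ((Tr.ord w : T).map f) := by
      change OmP θ (.ord (f w))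
      rw [hfw]
      refine ⟨.ord Ordinal.omega0, ord_mem.2 (hω.trans hw₀θ), ⟨trivial, lt_ord.2 hω⟩,
        ⟨.ord 0, ord_mem.2 (lt_of_le_of_lt zero_le hw₀θ), trivial,
          lt_ord.2 Ordinal.omega0_pos⟩, ?_⟩
      exact (limP_iff (hω.trans hw₀θ).le).2 (between_of_limit Ordinal.isSuccLimit_omega0)
    obtain ⟨z, hz, ⟨h5, h6⟩, ⟨x, hx, h7, h8⟩, h9⟩ :=
      (transfer hE (omP_def h1 h2) (ord_mem.2 hwγ)).2 h4
    obtain ⟨z, rfl⟩ := isOrd_iff.1 h5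
    obtain ⟨x, rfl⟩ := isOrd_iff.1 h7
    have hzw : z < w := lt_ord.1 h6
    have hzl : Order.IsSuccLimit z :=
      limit_of ⟨x, lt_ord.1 h8⟩ ((limP_iff (hzw.trans hwγ).le).1 h9)
    exact lt_of_le_of_lt (Ordinal.omega0_le_of_isSuccLimit hzl) hzw
  have hwl : Order.IsSuccLimit w :=
    limit_of ⟨_, hωw⟩ (hlim w hwγ (by rw [hfw]; exact hw0))
  have hκl : Order.IsSuccLimit κ :=
    limit_of ⟨_, hwκ⟩ (hlim κ hκγ (by rw [hfκ]; exact hk0))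
  have hγl : Order.IsSuccLimit γ := by
    have h4 : TopP θ ((Tr.ord w : T).map f) := by
      intro x hx h5
      obtain ⟨b, rfl⟩ := isOrd_iff.1 h5
      obtain ⟨y, h6, h7⟩ := between_of_limit hθ b (ord_mem.1 hx)
      exact ⟨.ord y, ord_mem.2 h7, trivial, lt_ord.2 h6⟩
    have h5 := (transfer hE (topP_def h1 h2) (ord_mem.2 hwγ)).2 h4
    refine limit_of ⟨w, hwγ⟩ fun x hx => ?_
    obtain ⟨y, hy, h6, h7⟩ := h5 (.ord x) (ord_mem.2 hx) trivial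
    obtain ⟨b, rfl⟩ := isOrd_iff.1 h6
    exact ⟨b, lt_ord.1 h7, ord_mem.1 hy⟩
  obtain ⟨r1, r2, r3⟩ := h0
  -- comprehension
  have hcomp : ∀ (φ : SF), ∀ e ∈ D (Iio γ), ∀ σ : ℕ → Set T, (∀ i, σ i ∈ Con γ) → ∀ d < γ,
      {x | x ∈ D (Iio d) ∧ Sat γ (Con γ) φ (.pr x e) σ} ∈ Con γ := by
    intro φ e he σ hσ d hd
    obtain ⟨c, hc⟩ := r1 φ
    obtain ⟨n, hn⟩ := r2 φ
    obtain ⟨K, hK, hKσ⟩ := r3 γ σ n hσ
    have hEm : (Tr.pr (.ord d) (.pr e K) : T) ∈ D (Iio γ) :=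
      pr_mem.2 ⟨ord_mem.2 hd, pr_mem.2 ⟨he, hK⟩⟩
    have h4 : CmpP c θ ((Tr.pr (.ord d) (.pr e K) : T).map f) := by
      have hfd := hE.rng d hd
      have he' := map_mem hE.rng e he
      have hK' := map_mem hE.rng K hK
      obtain ⟨C, hC, hCe⟩ := hS.comp φ (e.map f) he' (dseq (K.map f))
        (fun i => ⟨nth (K.map f) i, nth_mem i _ hK', rfl⟩) (f d) hfd
      refine ⟨C, hC, fun x hx => ?_⟩
      rw [← mem_dec_iff, ← hCe]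
      change (x ∈ D (Iio (f d)) ∧ _) ↔ (InD (.ord (f d)) x ∧
        Tru θ c (.pr (.pr x (e.map f)) (K.map f)))
      rw [inD_iff, hc θ hθ _ (pr_mem.2 ⟨hx, he'⟩) _ hK']
    obtain ⟨C, hC, h5⟩ := (transfer hE (cmpP_def h1 h2 h3 c) hEm).2 h4
    refine ⟨C, hC, ?_⟩
    have h6 : ∀ x ∈ D (Iio γ), (x ∈ dec C ↔ (x ∈ D (Iio d) ∧
        Sat γ (Con γ) φ (.pr x e) σ)) := by
      intro x hx
      rw [mem_dec_iff, h5 x hx]
      change (InD (.ord d) x ∧ Tru γ c (.pr (.pr x e) K)) ↔ _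
      rw [inD_iff, hc γ hγl _ (pr_mem.2 ⟨hx, he⟩) _ hK, hn γ (Con γ) _ _ _ hKσ]
    ext x
    constructor
    · rintro ⟨hx1, hx2⟩
      exact (h6 x (D_mono (fun y (hy : y < d) => lt_trans hy hd) hx1)).2 ⟨hx1, hx2⟩
    · intro hx
      exact (h6 x (dec_sub hC x hx)).1 hx
  have hSOM : SOM γ (Con γ) (Con γ) :=
    { lim := hγl
      omg := hωw.trans hwγ
      sub := subset_rfl
      emp := by
        refine ⟨.nat 0, nat_mem _ _, ?_⟩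
        ext x
        constructor
        · intro h; exact h.elim
        · rintro ⟨b, φ, v, h, -⟩
          cases h
      bdd := by
        rintro X ⟨C, hC, rfl⟩
        by_cases h : ∃ (b : O) (s : T), C = .pr (.ord b) s
        · obtain ⟨b, s, rfl⟩ := h
          refine ⟨b, ord_mem.1 (pr_mem.1 hC).1, ?_⟩
          rintro x ⟨b', φ, v, h1, h2, h3, h4⟩
          cases h1
          exact h3
        · refine ⟨w, hwγ, ?_⟩
          rintro x ⟨b', φ, v, h1, h2, h3, h4⟩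
          exact absurd ⟨b', _, h1⟩ h
      compS := hcomp
      comp := hcomp
      coll := by
        intro φ e he σ hσ d hd hall
        obtain ⟨c, hc⟩ := r1 φ
        obtain ⟨n, hn⟩ := r2 φ
        obtain ⟨K, hK, hKσ⟩ := r3 γ σ n hσ
        have hEm : (Tr.pr (.ord d) (.pr e K) : T) ∈ D (Iio γ) :=
          pr_mem.2 ⟨ord_mem.2 hd, pr_mem.2 ⟨he, hK⟩⟩
        have h4 : ColP c θ ((Tr.pr (.ord d) (.pr e K) : T).map f) := by
          have hfd := hE.rng d hd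
          have he' := map_mem hE.rng e he
          have hK' := map_mem hE.rng K hK
          intro hyp
          change ∀ x ∈ D (Iio θ), InD (.ord (f d)) x → ∃ y ∈ D (Iio θ),
            Tru θ c (.pr (.pr y (.pr x (e.map f))) (K.map f)) at hyp
          obtain ⟨b, hb, h5⟩ := hS.coll φ (e.map f) he' (dseq (K.map f))
            (fun i => ⟨nth (K.map f) i, nth_mem i _ hK', rfl⟩) (f d) hfd (by
              intro x hx
              have hxθ : x ∈ D (Iio θ) := D_mono (fun y (hy : y < f d) => lt_trans hy hfd) hx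
              obtain ⟨y, hy, h6⟩ := hyp x hxθ (inD_iff.2 hx)
              exact ⟨y, hy, (hc θ hθ _ (pr_mem.2 ⟨hy, pr_mem.2 ⟨hxθ, he'⟩⟩) _ hK').1 h6⟩)
          refine ⟨.ord b, ord_mem.2 hb, trivial, fun x hx hxd => ?_⟩
          obtain ⟨y, hy, h6⟩ := h5 x (inD_iff.1 hxd)
          have hyθ : y ∈ D (Iio θ) := D_mono (fun z (hz : z < b) => lt_trans hz hb) hy
          exact ⟨y, hyθ, inD_iff.2 hy,
            (hc θ hθ _ (pr_mem.2 ⟨hyθ, pr_mem.2 ⟨hx, he'⟩⟩) _ hK').2 h6⟩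
        have h5 := (transfer hE (colP_def h1 h2 h3 c) hEm).2 h4
        change (∀ x ∈ D (Iio γ), InD (.ord d) x → ∃ y ∈ D (Iio γ),
            Tru γ c (.pr (.pr y (.pr x e)) K)) →
          ∃ z ∈ D (Iio γ), z.IsOrd ∧ ∀ x ∈ D (Iio γ), InD (.ord d) x → ∃ y ∈ D (Iio γ),
            (InD z y ∧ Tru γ c (.pr (.pr y (.pr x e)) K)) at h5
        obtain ⟨z, hz, hz1, h6⟩ := h5 (by
          intro x hx hxd
          obtain ⟨y, hy, h7⟩ := hall x (inD_iff.1 hxd)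
          refine ⟨y, hy, (hc γ hγl _ (pr_mem.2 ⟨hy, pr_mem.2 ⟨hx, he⟩⟩) _ hK).2 ?_⟩
          rw [hn γ (Con γ) _ _ _ hKσ]
          exact h7)
        obtain ⟨b, rfl⟩ := isOrd_iff.1 hz1
        refine ⟨b, ord_mem.1 hz, fun x hx => ?_⟩
        have hxγ : x ∈ D (Iio γ) := D_mono (fun y (hy : y < d) => lt_trans hy hd) hx
        obtain ⟨y, hy, h7, h8⟩ := h6 x hxγ (inD_iff.2 hx)
        refine ⟨y, inD_iff.1 h7, ?_⟩
        have h9 := (hc γ hγl _ (pr_mem.2 ⟨hy, pr_mem.2 ⟨hxγ, he⟩⟩) _ hK).1 h8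
        rw [hn γ (Con γ) _ _ _ hKσ] at h9
        exact h9 }
  exact ⟨hSOM, hωw, hwκ, hκγ, hwl, hκl⟩

end Pool.Agent.Helper17.OD.PkEL1
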