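import Pool.Agent.Helper17.OD.GoalsFP

/-! # Packet RSQ: the sequence in the proof of (P7) -/

namespace Pool.Agent.Helper17.OD.PkRSQ

open Set
open Pool.Agent.Helper17.OD

/-! ## Basic facts -/

theorem isOrd_iff {x : T} : x.IsOrd ↔ ∃ a : O, x = .ord a := by
  cases x <;> simp [Tr.IsOrd]

theorem llt_ord {a b : O} : (Tr.ord a : T).llt (.ord b) ↔ a < b := by
  simp [Tr.llt]

theorem eqB_symm {j : O} {p q : T} (h : EqB j p q) : EqB j q p := fun i hi => by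
  obtain ⟨h1, h2⟩ := h i hi
  exact ⟨h1.symm, fun x hx => (h2 x (h1 ▸ hx)).symm⟩

theorem eqB_trans {j : O} {p q r : T} (h : EqB j p q) (h' : EqB j q r) : EqB j p r :=
  fun i hi => by
    obtain ⟨h1, h2⟩ := h i hi
    obtain ⟨h3, h4⟩ := h' i hi
    exact ⟨h1.trans h3, fun x hx => (h2 x hx).trans (h4 x (h1 ▸ hx))⟩

theorem eqB_refl (j : O) (p : T) : EqB j p p := fun _ _ => ⟨rfl, fun _ _ => rfl⟩

theorem mem_grt {l y : O} {q : O → T} {a : T} :
    Tr.pr (.ord y) a ∈ grt l q ↔ y < l ∧ a = q y := by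
  constructor
  · rintro ⟨x, hx, h⟩
    cases h
    exact ⟨hx, rfl⟩
  · rintro ⟨h1, rfl⟩
    exact ⟨y, h1, rfl⟩

theorem of_mem_grt {l : O} {q : O → T} {Y a : T} (h : Tr.pr Y a ∈ grt l q) :
    ∃ y < l, Y = .ord y ∧ a = q y := by
  obtain ⟨x, hx, h⟩ := h
  cases h
  exact ⟨x, hx, rfl, rfl⟩

theorem limL_eq {q : O → T} {l i b : O} : (b = limL q l i) ↔
    (∀ y < l, ln (q y) i ≤ b) ∧ ∀ z < b, ∃ y < l, z < ln (q y) i := by
  have hne : (∃ a, ∀ x < l, ln (q x) i ≤ a) →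
      (∀ x < l, ln (q x) i ≤ limL q l i) ∧ ∀ z < limL q l i, ∃ y < l, z < ln (q y) i := by
    rintro ⟨a, ha⟩
    have h1 : limL q l i ∈ {a | ∀ x < l, ln (q x) i ≤ a} := csInf_mem ⟨a, ha⟩
    refine ⟨h1, fun z hz => ?_⟩
    by_contra hcon
    push Not at hcon
    exact absurd (csInf_le' (show z ∈ {a | ∀ x < l, ln (q x) i ≤ a} from hcon)) (not_le.2 hz)
  constructor
  · rintro rfl
    by_cases h : ∃ a, ∀ x < l, ln (q x) i ≤ a
    · exact hne h
    · exfalso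
      apply h
      refine ⟨sSup ((fun x => ln (q x) i) '' Iio l), fun x hx => ?_⟩
      exact le_csSup Ordinal.bddAbove_of_small ⟨x, hx, rfl⟩
  · rintro ⟨h1, h2⟩
    obtain ⟨h3, h4⟩ := hne ⟨b, h1⟩
    refine le_antisymm ?_ (csInf_le' (show b ∈ {a | ∀ x < l, ln (q x) i ≤ a} from h1))
    by_contra hcon
    obtain ⟨y, hy, h5⟩ := h2 _ (not_le.1 hcon)
    exact absurd (h3 y hy) (not_le.2 h5)

/-! ## The relations -/

section rel

variable (F : FD) (j : O)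

/-- Order below `j'`, with bounded arguments. -/
def LeJ (j' : O) (a b : T) : Prop := a ∈ D (Iio F.κ) ∧ b ∈ D (Iio F.κ) ∧ F.Le j' a b

/-- Restrictions. -/
def ResT (J v r : T) : Prop := ∃ j ≤ F.κ, J = .ord j ∧ v ∈ F.P F.κ ∧ r = res v j

/-- Equality below `j + 1`. -/
def EqJ (v a : T) : Prop := ∃ r ∈ D (Iio F.γ), ResT F (.ord (Order.succ j)) v r ∧
  ResT F (.ord (Order.succ j)) a r

/-- Guards. -/
def GdT (Y s : T) : Prop := ∃ y, Y = .ord y ∧ s ∈ F.P F.κ ∧ s ∈ Gd j y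

/-- Amalgams. -/
def AmT (J s p a : T) : Prop := ∃ j < F.κ, J = .ord j ∧ s ∈ F.P j ∧ p ∈ F.P F.κ ∧ F.Le j s p ∧
  a = am s p j

/-- Successors. -/
def SuccT (Y X : T) : Prop := Y.IsOrd ∧ Y.llt X ∧
  ∀ z ∈ D (Iio F.γ), z.IsOrd → ¬ (Y.llt z ∧ z.llt X)

/-- Limits. -/
def LimT (X : T) : Prop := ¬ X = .ord 0 ∧ ¬ ∃ Y ∈ D (Iio F.γ), SuccT F Y X

/-- The step. -/
def StepF (H EE : Set T) (Y a v : T) : Prop := LeJ F F.κ v a ∧ EqJ F j v a ∧
  (∀ i ∈ D (Iio F.γ), i.IsOrd → i.llt (.ord F.κ) → (Tr.ord j : T).llt i →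
    ∀ z ∈ D (Iio F.γ), z.IsOrd → ¬ LnT a i z → LnT v i z → ∀ s ∈ D (Iio F.γ),
      Tr.pr i (.pr (.nat 1) (.pr z s)) ∈ dec v → GdT F j Y s) ∧
  ∀ t ∈ D (Iio F.γ), t ∈ F.P (Order.succ j) → LeJ F (Order.succ j) t a → GdT F j Y t →
    ∃ t' ∈ D (Iio F.γ), t' ∈ F.P (Order.succ j) ∧ LeJ F (Order.succ j) t' t ∧
      ∃ b ∈ D (Iio F.γ), AmT F (.ord (Order.succ j)) t' v b ∧
        ∃ u ∈ D (Iio F.γ), Tr.pr Y u ∈ H ∧ Tr.pr u b ∈ EE

/-- The recursion. -/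
def Phi (p : T) (H EE : Set T) (X v : T) (G : Set T) : Prop :=
  (X = .ord 0 → v = p) ∧
  (∀ Y ∈ D (Iio F.γ), ∀ a ∈ D (Iio F.γ), Tr.pr Y a ∈ G → SuccT F Y X → StepF F j H EE Y a v) ∧
  (LimT F X → (∀ Y ∈ D (Iio F.γ), ∀ a ∈ D (Iio F.γ), Tr.pr Y a ∈ G → LeJ F F.κ v a) ∧
    EqJ F j v p ∧ ∀ i ∈ D (Iio F.γ), i.IsOrd → i.llt (.ord F.κ) →
      (∀ Y ∈ D (Iio F.γ), ∀ a ∈ D (Iio F.γ), Tr.pr Y a ∈ G → ∀ z ∈ D (Iio F.γ),
        LnT a i z → LnT v i z) ∧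
      ∀ z ∈ D (Iio F.γ), LnT v i z → ∃ Y ∈ D (Iio F.γ), ∃ a ∈ D (Iio F.γ),
        Tr.pr Y a ∈ G ∧ LnT a i z)

end rel

/-! ## Definability -/

section def_

variable {F : FD} {j : O}

attribute [local irreducible] LeJ ResT EqJ GdT AmT SuccT LimT StepF LnT D

theorem leJ_def (hPIM : G_PIM) {j' : O} (hj' : j' ≤ F.κ) :
    SD F.γ F.M F.M (fun e _ => LeJ F j' e.fst e.snd) := by
  have hS : SOM F.γ F.M F.M := F.g.m1
  have h := ((hPIM F).2.1).sub (t := fun e => .pr (.ord j') e)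
    ((ST.ordc (lt_of_le_of_lt hj' F.g.kg)).pr ST.id)
  refine h.congr fun e he σ hσ => ?_
  unfold LeJ
  constructor
  · rintro ⟨i, hi, h1, h2, h3, h4⟩
    cases h1
    exact ⟨h2, h3, h4⟩
  · rintro ⟨h2, h3, h4⟩
    exact ⟨j', hj', rfl, h2, h3, h4⟩

theorem resT_def (hRES : G_RES) :
    SD F.γ F.M F.M (fun e _ => ResT F e.fst e.snd.fst e.snd.snd) := by
  unfold ResT
  exact (hRES F).2.2

theorem eqJ_def (hRES : G_RES) (hj : j < F.κ) :
    SD F.γ F.M F.M (fun e _ => EqJ F j e.fst e.snd) := by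
  have hS : SOM F.γ F.M F.M := F.g.m1
  have hk : Order.succ j < F.γ := (F.g.klim.succ_lt hj).trans F.g.kg
  have hr := resT_def (F := F) hRES
  unfold EqJ
  refine SD.exT (P := fun e r _ => ResT F (.ord (Order.succ j)) e.fst r ∧
    ResT F (.ord (Order.succ j)) e.snd r) ?_
  exact SD.and (SD.app3 hr (ST.ordc hk) (ST.fst (ST.snd ST.id)) (ST.fst ST.id))
    (SD.app3 hr (ST.ordc hk) (ST.snd (ST.snd ST.id)) (ST.fst ST.id))

theorem succT_def : SD F.γ F.M F.M (fun e _ => SuccT F e.fst e.snd) := by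
  have hS : SOM F.γ F.M F.M := F.g.m1
  unfold SuccT
  apply_rules [SD.exT, SD.allT, SD.isOrd, SD.llt, SD.not, SD.and, SD.imp, ST.id, ST.fst, ST.snd]

theorem limT_def : SD F.γ F.M F.M (fun e _ => LimT F e) := by
  have hS : SOM F.γ F.M F.M := F.g.m1
  have h0 : (0 : O) < F.γ := lt_of_le_of_lt zero_le F.g.kg
  have hs := succT_def (F := F)
  unfold LimT
  apply_rules [SD.exT, SD.allT, SD.isOrd, SD.llt, SD.not, SD.and, SD.imp, SD.eq, SD.app2 hs,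
    ST.id, ST.fst, ST.snd, ST.ordc]

theorem stepF_def (hPIM : G_PIM) (hRES : G_RES) (hGRD : G_GRD) (hAMG : G_AMG) (hLNS : G_LNS)
    (hDEC : G_DEC) (hj : j < F.κ) {H EE : Set T} (hH : H ∈ F.M) (hE : EE ∈ F.M) :
    SD F.γ F.M F.M (fun e _ => StepF F j H EE e.fst e.snd.fst e.snd.snd) := by
  have hS : SOM F.γ F.M F.M := F.g.m1
  have hjγ : j < F.γ := hj.trans F.g.kg
  have hsκ : Order.succ j < F.κ := F.g.klim.succ_lt hj
  have hsγ : Order.succ j < F.γ := hsκ.trans F.g.kg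
  have hκγ : F.κ < F.γ := F.g.kg
  have hP := (hPIM F).2.2 (Order.succ j) hsκ.le
  have d1 := leJ_def (F := F) hPIM (le_refl F.κ)
  have d2 := leJ_def (F := F) hPIM hsκ.le
  have d3 := eqJ_def hRES hj
  have d4 : SD F.γ F.M F.M (fun e _ => GdT F j e.fst e.snd) := by
    unfold GdT
    exact (hGRD F j 0 hj).2.2.2.2
  have d5 : SD F.γ F.M F.M
      (fun e _ => AmT F e.fst e.snd.fst e.snd.snd.fst e.snd.snd.snd) := by
    unfold AmT
    exact (hAMG F).2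
  have d6 : SD F.γ F.M F.M (fun e _ => LnT e.fst e.snd.fst e.snd.snd) := hLNS F.γ F.M F.M hS
  have d7 : SD F.γ F.M F.M (fun e _ => e.fst ∈ dec e.snd) := (hDEC F.γ F.M F.M hS).1
  have d8 : ∀ {s t : T → T}, ST F.γ s → ST F.γ t → SD F.γ F.M F.M
      (fun e _ => s e ∈ dec (t e)) := fun hs ht =>
    SD.app2 (R := fun x c => x ∈ dec c) d7 hs ht
  have d9 : ∀ {X : Set T}, X ∈ F.M → ∀ {s : T → T}, ST F.γ s → SD F.γ F.M F.M
      (fun e _ => s e ∈ X) := by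
    intro X hX s hs
    exact SD.mem hs (SV.par hX)
  unfold StepF
  iterate 12
    try apply_rules [SD.exT, SD.allT, SD.isOrd, SD.llt, SD.not, SD.and, SD.imp, SD.app2 d1,
      SD.app2 d2, SD.app2 d3, SD.app2 d4, SD.app4 d5, SD.app3 d6, d8, d9 hP, d9 hH, d9 hE,
      ST.id, ST.fst, ST.snd, ST.ordc, ST.pr, ST.nat]

theorem phi_def (hPIM : G_PIM) (hRES : G_RES) (hGRD : G_GRD) (hAMG : G_AMG) (hLNS : G_LNS)
    (hDEC : G_DEC) (hj : j < F.κ) {H EE : Set T} (hH : H ∈ F.M) (hE : EE ∈ F.M) {p : T}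
    (hp : p ∈ D (Iio F.γ)) :
    SD F.γ F.M F.M (fun e σ => Phi F j p H EE e.fst e.snd (σ 0)) := by
  have hS : SOM F.γ F.M F.M := F.g.m1
  have h0 : (0 : O) < F.γ := lt_of_le_of_lt zero_le F.g.kg
  have hκγ : F.κ < F.γ := F.g.kg
  have hpc : ST F.γ (fun _ => p) := ST.const hp
  clear hp
  have d0 := stepF_def hPIM hRES hGRD hAMG hLNS hDEC hj hH hE
  have d1 := leJ_def (F := F) hPIM (le_refl F.κ)
  have d3 := eqJ_def hRES hj
  have d4 := succT_def (F := F)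
  have d5 := limT_def (F := F)
  have d6 : SD F.γ F.M F.M (fun e _ => LnT e.fst e.snd.fst e.snd.snd) := hLNS F.γ F.M F.M hS
  have d9 : ∀ {s : T → T}, ST F.γ s → SD F.γ F.M F.M (fun e σ => s e ∈ σ 0) := by
    intro s hs
    exact SD.mem hs (SV.var 0)
  unfold Phi
  iterate 12
    try apply_rules [SD.exT, SD.allT, SD.isOrd, SD.llt, SD.not, SD.and, SD.imp, SD.eq, d9, SD.app3 d0, SD.app2 d1, SD.app2 d3, SD.app2 d4, SD.app1 d5, SD.app3 d6,
      ST.id, ST.fst, ST.snd, ST.ordc, ST.pr, ST.nat]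

end def_

/-! ## Meaning of the relations -/

theorem eqJ_iff (hRES : G_RES) {F : FD} {j : O} (hj : j < F.κ) {v a : T} (hv : v ∈ F.P F.κ)
    (ha : a ∈ F.P F.κ) (hPBD : G_PBD) : EqJ F j v a ↔ EqB (Order.succ j) v a := by
  have hsκ : Order.succ j < F.κ := F.g.klim.succ_lt hj
  obtain ⟨h1, h2, -⟩ := hRES F
  constructor
  · rintro ⟨r, -, ⟨j1, -, e1, -, e2⟩, ⟨j2, -, e3, -, e4⟩⟩
    cases e1
    cases e3
    have h3 := (h1 v hv _ hsκ.le).2.1
    have h4 := (h1 a ha _ hsκ.le).2.1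
    rw [← e2] at h3
    rw [← e4] at h4
    exact eqB_trans (eqB_symm h3) h4
  · intro h
    have h3 := h2 v hv a ha _ hsκ.le h
    refine ⟨res v (Order.succ j), ?_, ⟨_, hsκ.le, rfl, hv, rfl⟩, ⟨_, hsκ.le, rfl, ha, h3⟩⟩
    have h4 := (hPBD F).2.1 _ (h1 v hv _ hsκ.le).1
    exact D_mono (Iio_subset_Iio F.g.kg.le) h4

theorem succT_iff {F : FD} {y x : O} (hx : x < F.γ) :
    SuccT F (.ord y) (.ord x) ↔ x = Order.succ y := by
  constructor
  · rintro ⟨-, h1, h2⟩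
    have h1' := llt_ord.1 h1
    refine le_antisymm ?_ (Order.succ_le_of_lt h1')
    by_contra hcon
    have h3 : Order.succ y < x := not_le.1 hcon
    exact h2 (.ord (Order.succ y)) (ord_mem.2 (h3.trans hx)) trivial
      ⟨llt_ord.2 (Order.lt_succ y), llt_ord.2 h3⟩
  · rintro rfl
    refine ⟨trivial, llt_ord.2 (Order.lt_succ y), ?_⟩
    rintro z - hz ⟨h1, h2⟩
    obtain ⟨b, rfl⟩ := isOrd_iff.1 hz
    exact absurd (llt_ord.1 h1) (not_lt.2 (Order.lt_succ_iff.1 (llt_ord.1 h2)))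

theorem succT_ord {F : FD} {Y X : T} (h : SuccT F Y X) : ∃ y : O, Y = .ord y :=
  isOrd_iff.1 h.1

theorem limT_iff {F : FD} {x : O} (hx : x < F.γ) :
    LimT F (.ord x) ↔ Order.IsSuccLimit x := by
  constructor
  · rintro ⟨h1, h2⟩
    rcases Ordinal.zero_or_succ_or_isSuccLimit x with h | ⟨y, h⟩ | h
    · exact absurd (by rw [h]) h1
    · exfalso
      apply h2
      refine ⟨.ord y, ord_mem.2 ?_, (succT_iff hx).2 h.symm⟩
      have : y < x := by rw [← h]; exact Order.lt_succ y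
      exact this.trans hx
    · exact h
  · intro h
    refine ⟨fun h1 => ?_, ?_⟩
    · cases h1
      exact h.ne_bot rfl
    · rintro ⟨Y, -, hY⟩
      obtain ⟨y, rfl⟩ := succT_ord hY
      have := (succT_iff hx).1 hY
      rw [this] at h
      exact Order.not_isSuccLimit_succ y h

theorem lnT_iff {p : T} {i x : O} : LnT p (.ord i) (.ord x) ↔ x < ln p i := by
  constructor
  · rintro ⟨i', x', h1, h2, h3⟩
    cases h1
    cases h2
    exact h3
  · intro h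
    exact ⟨i, x, rfl, rfl, h⟩

/-! ## The main argument -/

section main

variable (F : FD) (j μ : O) (E : T → Set T) (h : O → T) (p : T)

/-- The family of dense sets. -/
def EEs : Set T := {z : T | ∃ y ∈ D (Iio μ), ∃ p ∈ E y, z = .pr y p}

/-- The step, in real terms. -/
structure Step (y : O) (a v : T) : Prop where
  le : F.Le F.κ v a
  eq : EqB (Order.succ j) v a
  nms : ∀ i < F.κ, j < i → ∀ z, ln a i ≤ z → z < ln v i → nm v i z ⊆ Gd j y
  dns : ∀ t ∈ F.P (Order.succ j), F.Le (Order.succ j) t a → t ∈ Gd j y →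
      ∃ t' ∈ F.P (Order.succ j), F.Le (Order.succ j) t' t ∧ am t' v (Order.succ j) ∈ E (h y)

variable {F j μ E h p}

theorem stepF_iff (hRES : G_RES) (hPBD : G_PBD) (hPUN : G_PUN) (hEQV : G_EQV) (hPRO : G_PRO)
    (hAMG : G_AMG) (hj : j < F.κ)
    (hh : ∀ x < F.η j, h x ∈ D (Iio μ)) {y : O} (hy : y < F.η j)
    (hμ : μ < F.η j) {a v : T} (ha : a ∈ F.P F.κ) (hv : v ∈ F.P F.κ) :
    StepF F j (grt (F.η j) h) (EEs μ E) (.ord y) a v ↔ Step F j E h y a v := by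
  have hsκ : Order.succ j < F.κ := F.g.klim.succ_lt hj
  have hκγ : F.κ < F.γ := F.g.kg
  have hκγ' : D (Iio F.κ) ⊆ (D (Iio F.γ) : Set T) := D_mono (Iio_subset_Iio hκγ.le)
  have hηκ : F.η j < F.κ := F.e.lt j hj
  have hPκ : F.P F.κ ⊆ D (Iio F.κ) := (hPBD F).2.1 _
  have hPs : F.P (Order.succ j) ⊆ F.P F.κ := (hPBD F).2.2.1 _ _ hsκ.le
  constructor
  · rintro ⟨h1, h2, h3, h4⟩
    have h2' := (eqJ_iff hRES hj hv ha hPBD).1 h2
    refine ⟨h1.2.2, h2', ?_, ?_⟩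
    · intro i hi hji z hz1 hz2 s hs
      have hzκ : z < F.κ := by
        have := ((hPUN F).2 F.κ v).1 hv
        exact hz2.trans ((this.len i hi hi).trans (F.e.lt i hi))
      have hro := (((hPUN F).2 F.κ v).1 hv).ro i hi hi z hz2
      have hsP : s ∈ F.P i := hro.1 hs
      have hsκ' : s ∈ F.P F.κ := (hPBD F).2.2.1 i F.κ hi.le hsP
      have h5 := h3 (.ord i) (ord_mem.2 (hi.trans hκγ)) trivial (llt_ord.2 hi) (llt_ord.2 hji)
        (.ord z) (ord_mem.2 (hzκ.trans hκγ)) trivial (fun hc => absurd (lnT_iff.1 hc)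
          (not_lt.2 hz1)) (lnT_iff.2 hz2) s (hκγ' (hPκ hsκ')) hs
      obtain ⟨y', e1, -, h6⟩ := h5
      cases e1
      exact h6
    · intro t ht hta htg
      obtain ⟨t', -, h5, h6, b, -, ⟨j', hj', e1, h7, h8, h9, h10⟩, u, -, h11, h12⟩ :=
        h4 t (hκγ' (hPκ (hPs ht))) ht ⟨hPκ (hPs ht), hPκ ha, hta⟩ ⟨y, rfl, hPs ht, htg⟩
      cases e1
      refine ⟨t', h5, h6.2.2, ?_⟩
      obtain ⟨-, e2⟩ := mem_grt.1 h11
      obtain ⟨y', hy', b', hb', e3⟩ := h12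
      cases e3
      rw [← h10, ← e2]
      exact hb'
  · rintro ⟨h1, h2, h3, h4⟩
    refine ⟨⟨hPκ hv, hPκ ha, h1⟩, (eqJ_iff hRES hj hv ha hPBD).2 h2, ?_, ?_⟩
    · intro i _ hi1 hi2 hi3 z _ hz1 hz2 hz3 s hs hs'
      obtain ⟨i, rfl⟩ := isOrd_iff.1 hi1
      obtain ⟨z, rfl⟩ := isOrd_iff.1 hz1
      have hi := llt_ord.1 hi2
      have hji := llt_ord.1 hi3
      have hz2' : ln a i ≤ z := not_lt.1 fun hc => hz2 (lnT_iff.2 hc)
      have hz3' := lnT_iff.1 hz3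
      have hro := (((hPUN F).2 F.κ v).1 hv).ro i hi hi z hz3'
      have hsP : s ∈ F.P i := hro.1 hs'
      exact ⟨y, rfl, (hPBD F).2.2.1 i F.κ hi.le hsP, h3 i hi hji z hz2' hz3' hs'⟩
    · rintro t - ht ⟨-, -, h5⟩ ⟨y', e1, h6, h7⟩
      cases e1
      obtain ⟨t', ht', h8, h9⟩ := h4 t ht h5 h7
      have h10 : F.Le (Order.succ j) t' v := by
        have h11 : F.Le (Order.succ j) t' a := (hPRO F).2.1 _ _ _ _ h8 h5
        exact ((hEQV F).1 (Order.succ j) v a t' h2).1.2 h11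
      have h12 := ((hAMG F).1 (Order.succ j) hsκ t' ht' v hv h10).1
      refine ⟨t', hκγ' (hPκ (hPs ht')), ht', ⟨hPκ (hPs ht'), hPκ (hPs ht), h8⟩,
        am t' v (Order.succ j), hκγ' (hPκ h12), ⟨_, hsκ, rfl, ht', hv, h10, rfl⟩, h y,
        D_mono (Iio_subset_Iio (hμ.trans (hηκ.trans hκγ)).le) (hh y hy),
        mem_grt.2 ⟨hy, rfl⟩, h y, hh y hy, _, h9, rfl⟩

/-- The facts which follow from the recursion. -/
structure Facts (F : FD) (j : O) (E : T → Set T) (h : O → T) (p : T) (l : O) (q : O → T) :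
    Prop where
  inP : ∀ x < l, q x ∈ F.P F.κ
  zero : 0 < l → q 0 = p
  step : ∀ y, Order.succ y < l → Step F j E h y (q y) (q (Order.succ y))
  lim : ∀ y < l, Order.IsSuccLimit y → (∀ z < y, F.Le F.κ (q y) (q z)) ∧
    EqB (Order.succ j) (q y) p ∧ ∀ i < F.κ, ln (q y) i = limL q y i

theorem Facts.dec (hPRO : G_PRO) {l : O} {q : O → T} (hf : Facts F j E h p l q) :
    ∀ x y, x < y → y < l → F.Le F.κ (q y) (q x) := by
  intro x y
  induction y using WellFoundedLT.induction with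
  | ind y ih =>
    intro hxy hyl
    rcases Ordinal.zero_or_succ_or_isSuccLimit y with h0 | ⟨z, hz⟩ | hl
    · rw [h0] at hxy
      exact absurd hxy not_lt_zero
    · subst hz
      have h1 := (hf.step z hyl).le
      rcases (Order.lt_succ_iff.1 hxy).lt_or_eq with h2 | h2
      · exact (hPRO F).2.1 _ _ _ _ h1 (ih z (Order.lt_succ z) h2 ((Order.lt_succ z).trans hyl))
      · rw [h2]; exact h1
    · exact (hf.lim y hyl hl).1 x hxy

theorem Facts.eqb {l : O} {q : O → T} (hf : Facts F j E h p l q) :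
    ∀ y < l, EqB (Order.succ j) (q y) p := by
  intro y
  induction y using WellFoundedLT.induction with
  | ind y ih =>
    intro hyl
    rcases Ordinal.zero_or_succ_or_isSuccLimit y with h0 | ⟨z, hz⟩ | hl
    · rw [h0, hf.zero (h0 ▸ hyl)]
      exact eqB_refl _ _
    · subst hz
      exact eqB_trans (hf.step z hyl).eq (ih z (Order.lt_succ z) ((Order.lt_succ z).trans hyl))
    · exact (hf.lim y hyl hl).2.1

theorem limF_iff (hPBD : G_PBD) (hPUN : G_PUN) {x : O} (hx : x < F.η j) (hj : j < F.κ)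
    {q : O → T} (hq : ∀ y < x, q y ∈ F.P F.κ) {v : T} (hv : v ∈ F.P F.κ) :
    (∀ i ∈ D (Iio F.γ), i.IsOrd → i.llt (.ord F.κ) →
      (∀ Y ∈ D (Iio F.γ), ∀ a ∈ D (Iio F.γ), Tr.pr Y a ∈ grt x q → ∀ z ∈ D (Iio F.γ),
        LnT a i z → LnT v i z) ∧
      ∀ z ∈ D (Iio F.γ), LnT v i z → ∃ Y ∈ D (Iio F.γ), ∃ a ∈ D (Iio F.γ),
        Tr.pr Y a ∈ grt x q ∧ LnT a i z) ↔ ∀ i < F.κ, ln v i = limL q x i := by
  have hκγ : F.κ < F.γ := F.g.kg
  have hκγ' : D (Iio F.κ) ⊆ (D (Iio F.γ) : Set T) := D_mono (Iio_subset_Iio hκγ.le)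
  have hηκ : F.η j < F.κ := F.e.lt j hj
  have hPκ : F.P F.κ ⊆ D (Iio F.κ) := (hPBD F).2.1 _
  have hln : ∀ b ∈ F.P F.κ, ∀ i < F.κ, ln b i < F.γ := by
    intro b hb i hi
    exact (((hPUN F).2 F.κ b).1 hb).len i hi hi |>.trans ((F.e.lt i hi).trans hκγ)
  constructor
  · intro hyp i hi
    obtain ⟨h1, h2⟩ := hyp (.ord i) (ord_mem.2 (hi.trans hκγ)) trivial (llt_ord.2 hi)
    refine limL_eq.2 ⟨?_, ?_⟩
    · intro y hy
      by_contra hcon
      have h3 := not_le.1 hcon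
      have h4 := h1 (.ord y) (ord_mem.2 (hy.trans (hx.trans (hηκ.trans hκγ)))) (q y)
        (hκγ' (hPκ (hq y hy))) (mem_grt.2 ⟨hy, rfl⟩) (.ord (ln v i))
        (ord_mem.2 (hln v hv i hi)) (lnT_iff.2 h3)
      exact absurd (lnT_iff.1 h4) (lt_irrefl _)
    · intro z hz
      obtain ⟨Y, -, a, -, h3, h4⟩ := h2 (.ord z) (ord_mem.2 (hz.trans (hln v hv i hi)))
        (lnT_iff.2 hz)
      obtain ⟨y, hy, rfl, rfl⟩ := of_mem_grt h3
      exact ⟨y, hy, lnT_iff.1 h4⟩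
  · intro hyp i _ hi1 hi2
    obtain ⟨i, rfl⟩ := isOrd_iff.1 hi1
    have hi := llt_ord.1 hi2
    obtain ⟨h1, h2⟩ := limL_eq.1 (hyp i hi)
    refine ⟨?_, ?_⟩
    · rintro Y - a - h3 z - h4
      obtain ⟨y, hy, rfl, rfl⟩ := of_mem_grt h3
      obtain ⟨i', z', e1, rfl, h5⟩ := h4
      cases e1
      exact lnT_iff.2 (lt_of_lt_of_le h5 (h1 y hy))
    · rintro z - h4
      obtain ⟨i', z', e1, rfl, h5⟩ := h4
      cases e1
      obtain ⟨y, hy, h6⟩ := h2 z' h5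
      exact ⟨.ord y, ord_mem.2 (hy.trans (hx.trans (hηκ.trans hκγ))), q y,
        hκγ' (hPκ (hq y hy)), mem_grt.2 ⟨hy, rfl⟩, lnT_iff.2 h6⟩

theorem facts_of (hRES : G_RES) (hPBD : G_PBD) (hPUN : G_PUN) (hEQV : G_EQV) (hPRO : G_PRO)
    (hAMG : G_AMG) (hj : j < F.κ)
    (hh : ∀ x < F.η j, h x ∈ D (Iio μ))
    (hμ : μ < F.η j) (hp : p ∈ F.P F.κ) {l : O} (hl : l ≤ F.η j) {q : O → T}
    (hq : ∀ y < l, q y ∈ F.P F.κ ∧
      Phi F j p (grt (F.η j) h) (EEs μ E) (.ord y) (q y) (grt y q)) :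
    Facts F j E h p l q := by
  have hκγ : F.κ < F.γ := F.g.kg
  have hκγ' : D (Iio F.κ) ⊆ (D (Iio F.γ) : Set T) := D_mono (Iio_subset_Iio hκγ.le)
  have hηκ : F.η j < F.κ := F.e.lt j hj
  have hPκ : F.P F.κ ⊆ D (Iio F.κ) := (hPBD F).2.1 _
  have hlγ : l < F.γ := lt_of_le_of_lt hl (hηκ.trans hκγ)
  refine ⟨fun x hx => (hq x hx).1, fun h0 => (hq 0 h0).2.1 rfl, ?_, ?_⟩
  · intro y hy
    have hy' : y < l := (Order.lt_succ y).trans hy
    have h1 := (hq _ hy).2.2.1 (.ord y) (ord_mem.2 (hy'.trans hlγ)) (q y)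
      (hκγ' (hPκ (hq y hy').1)) (mem_grt.2 ⟨Order.lt_succ y, rfl⟩)
      ((succT_iff (hy.trans hlγ)).2 rfl)
    exact (stepF_iff hRES hPBD hPUN hEQV hPRO hAMG hj hh (lt_of_lt_of_le hy' hl) hμ
      (hq y hy').1 (hq _ hy).1).1 h1
  · intro y hy hyl
    obtain ⟨h1, h2, h3⟩ := (hq y hy).2.2.2 ((limT_iff (hy.trans hlγ)).2 hyl)
    refine ⟨?_, (eqJ_iff hRES hj (hq y hy).1 hp hPBD).1 h2, ?_⟩
    · intro z hz
      exact (h1 (.ord z) (ord_mem.2 (hz.trans (hy.trans hlγ))) (q z)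
        (hκγ' (hPκ (hq z (hz.trans hy)).1)) (mem_grt.2 ⟨hz, rfl⟩)).2.2
    · exact (limF_iff hPBD hPUN (lt_of_lt_of_le hy hl) hj
        (fun z hz => (hq z (hz.trans hy)).1) (hq y hy).1).1 h3

end main

theorem thm (hTRC : G_TRC) (hONE : G_ONE) (hGLM : G_GLM) (hGRD : G_GRD) (hAMG : G_AMG)
    (hPIM : G_PIM) (hLNS : G_LNS) (hDEC : G_DEC) (hRES : G_RES) (hEQV : G_EQV) (hPRO : G_PRO)
    (hPBD : G_PBD) (hPUN : G_PUN) : G_RSQ := by
  intro F j μ hj hμ E hDO hEM h hh hhM p hp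
  have hS : SOM F.γ F.M F.M := F.g.m1
  have hκγ : F.κ < F.γ := F.g.kg
  have hκγ' : D (Iio F.κ) ⊆ (D (Iio F.γ) : Set T) := D_mono (Iio_subset_Iio hκγ.le)
  have hηκ : F.η j < F.κ := F.e.lt j hj
  have hPκ : F.P F.κ ⊆ D (Iio F.κ) := (hPBD F).2.1 _
  have hηγ : F.η j < F.γ := hηκ.trans hκγ
  have hEM' : EEs μ E ∈ F.M := hEM
  have hstep : ∀ x < F.η j, ∀ q : O → T, grt x q ∈ F.M →
      (∀ y < x, q y ∈ F.P F.κ ∧
        Phi F j p (grt (F.η j) h) (EEs μ E) (.ord y) (q y) (grt y q)) →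
      ∃ v ∈ F.P F.κ, Phi F j p (grt (F.η j) h) (EEs μ E) (.ord x) v (grt x q) := by
    intro x hx q hqM hq
    have hf := facts_of hRES hPBD hPUN hEQV hPRO hAMG hj hh hμ hp hx.le hq
    have hxγ : x < F.γ := hx.trans hηγ
    rcases Ordinal.zero_or_succ_or_isSuccLimit x with h0 | ⟨y, hy⟩ | hl
    · subst h0
      refine ⟨p, hp, fun _ => rfl, ?_, ?_⟩
      · intro Y _ a _ h1
        obtain ⟨y, hy, -⟩ := of_mem_grt h1
        exact absurd hy not_lt_zero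
      · intro h1
        exact absurd rfl h1.1
    · subst hy
      have hyx : y < Order.succ y := Order.lt_succ y
      have hyη : y < F.η j := hyx.trans hx
      obtain ⟨v, hv, h1, h2, h3, h4⟩ := hONE F j y hj hyη (q y) (hf.inP y hyx) (E (h y))
        (hDO _ (hh y hyη))
      refine ⟨v, hv, ?_, ?_, ?_⟩
      · intro h5
        have h6 : Order.succ y = 0 := by
          injection h5
        exact absurd (h6 ▸ Order.lt_succ y : y < 0) not_lt_zero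
      · intro Y _ a _ h5 h6
        obtain ⟨y', hy', rfl, rfl⟩ := of_mem_grt h5
        have h7 : y = y' := Order.succ_injective ((succT_iff hxγ).1 h6)
        subst h7
        exact (stepF_iff hRES hPBD hPUN hEQV hPRO hAMG hj hh hyη hμ (hf.inP _ hyx) hv).2
          ⟨h1, h2, h3, h4⟩
      · intro h5
        have h6 := (limT_iff hxγ).1 h5
        exact absurd h6 (Order.not_isSuccLimit_succ y)
    · have hx0 : 0 < x := pos_iff_ne_zero.2 (fun h0 => by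
        rw [h0] at hl; exact hl.ne_bot rfl)
      obtain ⟨v, hv, h1, h2, h3⟩ := hGLM F j x q hj hl hx.le hqM hf.inP (hf.dec hPRO)
        (fun y hy => by rw [hf.zero hx0]; exact hf.eqb y hy)
        (fun y hy => (hf.step y (hl.succ_lt hy)).nms)
        (fun y hy hyl => (hf.lim y hy hyl).2.2)
      rw [hf.zero hx0] at h2
      refine ⟨v, hv, ?_, ?_, ?_⟩
      · intro h5
        have h6 : x = 0 := by
          injection h5
        exact absurd h6 hx0.ne'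
      · intro Y _ a _ h5 h6
        obtain ⟨y', hy', rfl, rfl⟩ := of_mem_grt h5
        have h7 := (succT_iff hxγ).1 h6
        rw [h7] at hl
        exact absurd hl (Order.not_isSuccLimit_succ y')
      · intro _
        refine ⟨?_, (eqJ_iff hRES hj hv hp hPBD).2 h2, ?_⟩
        · intro Y _ a _ h5
          obtain ⟨y', hy', rfl, rfl⟩ := of_mem_grt h5
          exact ⟨hPκ hv, hPκ (hf.inP y' hy'), h1 y' hy'⟩
        · exact (limF_iff hPBD hPUN hx hj hf.inP hv).2 h3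
  obtain ⟨q, hqM, hq⟩ := hTRC F.γ F.M F.M hS (F.η j) hηγ
    (fun X v G => Phi F j p (grt (F.η j) h) (EEs μ E) X v G) (F.P F.κ) ((hPIM F).2.2 F.κ le_rfl)
    (phi_def hPIM hRES hGRD hAMG hLNS hDEC hj hhM hEM' (hκγ' (hPκ hp))) hstep
  have hf := facts_of hRES hPBD hPUN hEQV hPRO hAMG hj hh hμ hp le_rfl hq
  have hη0 : 0 < F.η j := lt_of_le_of_lt zero_le (F.e.low j hj).2
  have hsucc : ∀ x < F.η j, Order.succ x < F.η j := fun x hx => (F.e.lim j hj).succ_lt hx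
  refine ⟨q, hqM, hf.zero hη0, hf.inP, hf.dec hPRO, hf.eqb,
    fun x hx => (hf.step x (hsucc x hx)).nms, fun y hy hyl => (hf.lim y hy hyl).2.2, ?_⟩
  intro x hx t ht htp htg
  refine (hf.step x (hsucc x hx)).dns t ht ?_ htg
  exact ((hEQV F).1 (Order.succ j) (q x) p t (hf.eqb x hx)).1.2 htp

end Pool.Agent.Helper17.OD.PkRSQ
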